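import Mathlib
import Pool.Agent.H905R2.Tri7

/-! # MP_690138_an: operators which are not polynomially self-adjoint modulo compacts

Let `A` be a bounded operator on a separable complex Hilbert space such that `h(A) - h(A)*` is
non-compact for every non-constant polynomial `h`.  Then `A` belongs to a triangular subalgebra of
`B(H)` in the sense of Kadison and Singer. -/

open Polynomial

namespace Pool.Agent.Results.MP_690138_an.EssentialCase

theorem result (H : Type*) [NormedAddCommGroup H] [InnerProductSpace ℂ H] [CompleteSpace H]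
    [TopologicalSpace.SeparableSpace H] (A : H →L[ℂ] H)
    (hA : ∀ h : ℂ[X], 0 < h.natDegree → ¬ IsCompactOperator (aeval A h - star (aeval A h))) :
    ∃ 𝒯 : Subalgebra ℂ (H →L[ℂ] H), A ∈ 𝒯 ∧
      {x : H →L[ℂ] H | x ∈ 𝒯 ∧ star x ∈ 𝒯} =
        Set.centralizer {x : H →L[ℂ] H | x ∈ 𝒯 ∧ star x ∈ 𝒯} :=
  H905Tri.triangular_of_essential hA

end Pool.Agent.Results.MP_690138_an.EssentialCase
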